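import Pool.Agent.Helper626.Deg3

namespace Pool.Agent.Results.MP_79a54e_lc.NonMinimalCut

open Pool.Agent.Helper626

/-- There is a model `M` of `PA⁻` with exponentiation, `IΣ_1` and `BΣ_2` (both for formulas of the
language of arithmetic and for formulas with exponentiation), a `Σ_2` cut `I` of `M` and a set
`X ⊆ M` with `∅ <_T X <_T I`: the degree of `I` is not minimal. -/
theorem result : ∃ (M : Type) (_ : ArithOps M),
    PAminusExp M ∧ (∀ e : Bool, ISigma e 1 M ∧ BSigma e 2 M) ∧
    ∃ I X : Set M, IsCut I ∧ SigmaDef false 2 I ∧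
      TuringLE false ∅ X ∧ ¬ TuringLE false X ∅ ∧ TuringLE false X I ∧ ¬ TuringLE false I X := by
  obtain ⟨M, hM, h1, h2, I, X, h3, h4, h5⟩ := exists_nonminimal
  exact ⟨M, hM, h1, h2, I, X, h3, h4 false, h5 false⟩

end Pool.Agent.Results.MP_79a54e_lc.NonMinimalCut
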